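import Mathlib
import Pool.Agent.Helper75.IP.Defs
import Pool.Agent.Helper75.IP.En
import Pool.Agent.Helper25.AG.Near

/-!
# Independent powers: piece E6

Kernels with small Fourier coefficients on average have almost the maximal averaged entropy.
-/

set_option autoImplicit false
open MeasureTheory Filter Topology ProbabilityTheory Helper35.AG
open scoped ENNReal

namespace Helper39.IP

open Helper75.IP

/-- a measure with small Fourier coefficients has almost maximal entropy on all shifted cells -/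
theorem en_near (K : ℕ) {δ : ℝ} (hδ : 0 < δ) :
    ∃ n : ℕ, ∀ ρ : Measure Tor, IsProbabilityMeasure ρ →
      (∀ m : ℤ, 1 ≤ m → m ≤ n → ‖∫ x, (fourier m x : ℂ) ∂ρ‖ < 1 / ((n : ℝ) + 1)) →
      K * Real.log 2 - δ ≤ en K ρ := by
  have h2 : (0 : ℝ) < 2 ^ K := by positivity
  obtain ⟨n, hn⟩ := Helper25.AG.cell_near K (ε := δ / 2 ^ K) (by positivity)
  refine ⟨n, fun ρ hρ h => ?_⟩
  have key : ∀ y : Tor, K * Real.log 2 - δ ≤
      ∑ i ∈ Finset.range (2 ^ K), Real.negMulLog (ρ.real {x | idx K (x + y) = i}) := by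
    intro y
    have hm : Measurable fun x : Tor => x + y := by fun_prop
    set ρ' : Measure Tor := ρ.map fun x => x + y with hρ'
    have hp : IsProbabilityMeasure ρ' := Measure.isProbabilityMeasure_map hm.aemeasurable
    have hc : ∀ m : ℤ, 1 ≤ m → m ≤ n →
        ‖∫ x, (fourier m x : ℂ) ∂ρ'‖ < 1 / ((n : ℝ) + 1) := by
      intro m h1 h3
      rw [hρ', integral_map hm.aemeasurable (fourier m).continuous.aestronglyMeasurable]
      have e : ∀ x : Tor, (fourier m (x + y) : ℂ) = fourier m x * fourier m y :=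
        fun x => Helper58.FH.fourier_add_arg m x y
      simp_rw [e]
      rw [integral_mul_const, norm_mul]
      have hy : ‖(fourier m y : ℂ)‖ = 1 := by
        rw [fourier_apply]
        exact Circle.norm_coe _
      rw [hy, mul_one]
      exact h m h1 h3
    have h4 := Helper25.AG.ent_ge ρ' K hδ.le fun i hi => by
      rw [add_div]
      exact (hn ρ' hp hc i hi).le
    have h5 : ent ρ' K =
        ∑ i ∈ Finset.range (2 ^ K), Real.negMulLog (ρ.real {x | idx K (x + y) = i}) := by
      unfold ent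
      refine Finset.sum_congr rfl fun i _ => ?_
      rw [hρ', measureReal_def, Measure.map_apply hm (measurableSet_idx K i)]
      rfl
    rw [← h5]
    exact h4
  have hint : Integrable (fun y : Tor =>
      ∑ i ∈ Finset.range (2 ^ K), Real.negMulLog (ρ.real {x | idx K (x + y) = i}))
      (volume : Measure Tor) := by
    refine Integrable.of_bound (Measurable.aestronglyMeasurable ?_) (2 ^ K)
      (Eventually.of_forall fun y => ?_)
    · exact Finset.measurable_sum _ fun i _ =>
        Real.continuous_negMulLog.measurable.comp (measurable_real ρ (measurableSet_idx K i))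
    · refine (norm_sum_le _ _).trans ?_
      calc ∑ i ∈ Finset.range (2 ^ K), ‖Real.negMulLog (ρ.real {x | idx K (x + y) = i})‖
          ≤ ∑ _i ∈ Finset.range (2 ^ K), (1 : ℝ) := by
            refine Finset.sum_le_sum fun i _ => ?_
            have h0 : 0 ≤ ρ.real {x | idx K (x + y) = i} := measureReal_nonneg
            have h1 : ρ.real {x | idx K (x + y) = i} ≤ 1 := measureReal_le_one
            rw [Real.norm_eq_abs, abs_of_nonneg (Real.negMulLog_nonneg h0 h1)]
            have := Real.negMulLog_le_one_sub_self h0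
            linarith
        _ = 2 ^ K := by simp
  have h6 := integral_mono (μ := (volume : Measure Tor))
    (integrable_const (K * Real.log 2 - δ)) hint key
  rw [integral_const, probReal_univ, one_smul] at h6
  exact h6

/-- **E6** -/
theorem en_lim (K : ℕ) (α : ℕ → Measure Tor) [∀ N, IsProbabilityMeasure (α N)]
    (κ : ℕ → Kernel Tor Tor) [∀ N, IsMarkovKernel (κ N)]
    (h : ∀ j : ℤ, j ≠ 0 → Tendsto (fun N => ∫ w, ‖∫ y, (fourier j y : ℂ) ∂(κ N w)‖ ^ 2 ∂(α N))
      atTop (𝓝 0)) :
    Tendsto (fun N => ∫ w, en K (κ N w) ∂(α N)) atTop (𝓝 (K * Real.log 2)) := by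
  have hl : 0 ≤ (K : ℝ) * Real.log 2 := by
    have : 0 ≤ Real.log 2 := Real.log_nonneg (by norm_num)
    positivity
  have hmE : ∀ N, Measurable fun w => en K (κ N w) := fun N => measurable_en (κ N) K
  have hiE : ∀ N, Integrable (fun w => en K (κ N w)) (α N) := fun N =>
    Integrable.of_bound (hmE N).aestronglyMeasurable (K * Real.log 2)
      (Eventually.of_forall fun w => by
        rw [Real.norm_eq_abs, abs_of_nonneg (en_nonneg K _)]
        exact en_le K _)
  have hup : ∀ N, ∫ w, en K (κ N w) ∂(α N) ≤ K * Real.log 2 := by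
    intro N
    have h1 := integral_mono (hiE N) (integrable_const (K * Real.log 2)) fun w => en_le K (κ N w)
    rwa [integral_const, probReal_univ, one_smul] at h1
  rw [Metric.tendsto_atTop]
  intro ε hε
  obtain ⟨n, hn⟩ := en_near K (δ := ε / 2) (by positivity)
  -- the sum of the coefficients
  set c : ℕ → Tor → ℝ := fun N w =>
    ∑ m ∈ Finset.Icc (1 : ℤ) n, ‖∫ y, (fourier m y : ℂ) ∂(κ N w)‖ ^ 2 with hc
  have hmF : ∀ N (m : ℤ), Measurable fun w => ‖∫ y, (fourier m y : ℂ) ∂(κ N w)‖ ^ 2 := by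
    intro N m
    have h1 : StronglyMeasurable fun w => ∫ y, (fourier m y : ℂ) ∂(κ N w) :=
      StronglyMeasurable.integral_kernel_prod_right' (κ := κ N)
        (f := fun p : Tor × Tor => (fourier m p.2 : ℂ))
        ((fourier m).continuous.comp continuous_snd).stronglyMeasurable
    exact h1.measurable.norm.pow_const 2
  have hbF : ∀ N (m : ℤ) w, ‖∫ y, (fourier m y : ℂ) ∂(κ N w)‖ ^ 2 ≤ 1 := by
    intro N m w
    have h1 : ‖∫ y, (fourier m y : ℂ) ∂(κ N w)‖ ≤ 1 := by
      refine (norm_integral_le_integral_norm _).trans (le_of_eq ?_)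
      have : ∀ y : Tor, ‖(fourier m y : ℂ)‖ = 1 := fun y => by
        rw [fourier_apply]
        exact Circle.norm_coe _
      simp only [this]
      rw [integral_const, probReal_univ, one_smul]
    exact pow_le_one₀ (norm_nonneg _) h1
  have hiF : ∀ N (m : ℤ), Integrable (fun w => ‖∫ y, (fourier m y : ℂ) ∂(κ N w)‖ ^ 2) (α N) :=
    fun N m => Integrable.of_bound (hmF N m).aestronglyMeasurable 1
      (Eventually.of_forall fun w => by
        rw [Real.norm_eq_abs, abs_of_nonneg (by positivity)]
        exact hbF N m w)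
  have hci : ∀ N, Integrable (c N) (α N) := fun N =>
    integrable_finsetSum _ fun m _ => hiF N m
  have hc0 : Tendsto (fun N => ∫ w, c N w ∂(α N)) atTop (𝓝 0) := by
    have e : ∀ N, ∫ w, c N w ∂(α N) =
        ∑ m ∈ Finset.Icc (1 : ℤ) n, ∫ w, ‖∫ y, (fourier m y : ℂ) ∂(κ N w)‖ ^ 2 ∂(α N) :=
      fun N => integral_finsetSum _ fun m _ => hiF N m
    simp_rw [e]
    have h1 := tendsto_finsetSum (Finset.Icc (1 : ℤ) n) fun m hm =>
      h m (by
        have := (Finset.mem_Icc.1 hm).1
        omega)
    simpa using h1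
  -- pointwise
  have hpt : ∀ N w, K * Real.log 2 - ε / 2 -
      (K * Real.log 2) * (((n : ℝ) + 1) ^ 2 * c N w) ≤ en K (κ N w) := by
    intro N w
    have hn1 : (0 : ℝ) < (n : ℝ) + 1 := by positivity
    have hcn : 0 ≤ c N w := Finset.sum_nonneg fun m _ => by positivity
    by_cases hs : ∀ m : ℤ, 1 ≤ m → m ≤ n →
        ‖∫ x, (fourier m x : ℂ) ∂(κ N w)‖ < 1 / ((n : ℝ) + 1)
    · have h1 := hn (κ N w) inferInstance hs
      have h3 : 0 ≤ (K * Real.log 2) * (((n : ℝ) + 1) ^ 2 * c N w) := by positivity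
      linarith
    · push Not at hs
      obtain ⟨m, h1, h3, h4⟩ := hs
      have h5 : (1 / ((n : ℝ) + 1)) ^ 2 ≤ c N w := by
        refine (pow_le_pow_left₀ (by positivity) h4 2).trans ?_
        exact Finset.single_le_sum
          (f := fun m : ℤ => ‖∫ y, (fourier m y : ℂ) ∂(κ N w)‖ ^ 2)
          (fun m _ => by positivity) (Finset.mem_Icc.2 ⟨h1, h3⟩)
      have h6 : 1 ≤ ((n : ℝ) + 1) ^ 2 * c N w := by
        calc (1 : ℝ) = ((n : ℝ) + 1) ^ 2 * (1 / ((n : ℝ) + 1)) ^ 2 := by
              field_simp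
          _ ≤ _ := by gcongr
      have h7 : K * Real.log 2 ≤ (K * Real.log 2) * (((n : ℝ) + 1) ^ 2 * c N w) :=
        le_mul_of_one_le_right hl h6
      have h8 := en_nonneg K (κ N w)
      linarith
  have hlow : ∀ N, K * Real.log 2 - ε / 2 -
      (K * Real.log 2) * (((n : ℝ) + 1) ^ 2 * ∫ w, c N w ∂(α N)) ≤
      ∫ w, en K (κ N w) ∂(α N) := by
    intro N
    have hi1 : Integrable (fun w => (K * Real.log 2) * (((n : ℝ) + 1) ^ 2 * c N w)) (α N) :=
      ((hci N).const_mul _).const_mul _
    have h1 := integral_mono ((integrable_const (K * Real.log 2 - ε / 2)).sub hi1) (hiE N)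
      (hpt N)
    have h3 : ∫ w, (K * Real.log 2 - ε / 2 -
        (K * Real.log 2) * (((n : ℝ) + 1) ^ 2 * c N w)) ∂(α N) =
        K * Real.log 2 - ε / 2 -
          (K * Real.log 2) * (((n : ℝ) + 1) ^ 2 * ∫ w, c N w ∂(α N)) := by
      rw [integral_sub (integrable_const _) hi1, integral_const, probReal_univ, one_smul,
        integral_const_mul, integral_const_mul]
    rw [← h3]
    exact h1
  have hc1 : Tendsto (fun N => (K * Real.log 2) * (((n : ℝ) + 1) ^ 2 * ∫ w, c N w ∂(α N)))
      atTop (𝓝 0) := by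
    have := (hc0.const_mul (((n : ℝ) + 1) ^ 2)).const_mul (K * Real.log 2)
    simpa using this
  obtain ⟨N0, hN0⟩ := (Metric.tendsto_atTop.1 hc1) (ε / 2) (by positivity)
  refine ⟨N0, fun N hN => ?_⟩
  have h1 := hN0 N hN
  rw [Real.dist_eq, sub_zero] at h1
  have h3 := (le_abs_self _).trans_lt h1
  have h4 := hlow N
  have h5 := hup N
  rw [Real.dist_eq, abs_sub_comm, abs_of_nonneg (by linarith)]
  linarith

end Helper39.IP
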