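import Mathlib
import Pool.Agent.Helper75.IP.DefsL

/-!
# Independent powers for products: pairwise singular measures and trigonometric polynomials
-/

set_option autoImplicit false
open MeasureTheory Filter Topology ProbabilityTheory Helper35.AG Helper75.IP
open scoped ENNReal

namespace Helper39.IP

/-- integral of a trigonometric polynomial -/
theorem int_poly (α : Measure Tor) [IsFiniteMeasure α] (s : Finset ℤ) (d : ℤ → ℂ) :
    ∑ k ∈ s, d k * ∫ x, (fourier k x : ℂ) ∂α = ∫ x, ∑ k ∈ s, d k * (fourier k x : ℂ) ∂α := by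
  rw [integral_finsetSum]
  · refine Finset.sum_congr rfl fun k _ => ?_
    rw [integral_const_mul]
  · intro k _
    refine Integrable.const_mul ?_ _
    exact (ContinuousMap.continuous (fourier k)).integrable_of_hasCompactSupport
      (HasCompactSupport.of_compactSpace _)

theorem cont_int (α : Measure Tor) [IsFiniteMeasure α] {f : Tor → ℂ} (hf : Continuous f) :
    Integrable f α :=
  hf.integrable_of_hasCompactSupport (HasCompactSupport.of_compactSpace _)

/-- truncation to the unit disc -/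
noncomputable def trunc (z : ℂ) : ℂ := ((max 1 ‖z‖)⁻¹ : ℝ) • z

theorem trunc_cont : Continuous trunc := by
  unfold trunc
  refine Continuous.smul (f := fun z : ℂ => ((max 1 ‖z‖)⁻¹ : ℝ)) ?_ continuous_id
  have hc : Continuous fun z : ℂ => max (1 : ℝ) ‖z‖ := continuous_const.max continuous_norm
  have h0 : ∀ z : ℂ, max (1 : ℝ) ‖z‖ ≠ 0 := fun z => by
    have : (1 : ℝ) ≤ max 1 ‖z‖ := le_max_left _ _
    positivity
  exact hc.inv₀ h0

theorem trunc_le (z : ℂ) : ‖trunc z‖ ≤ 1 := by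
  have h1 : (1 : ℝ) ≤ max 1 ‖z‖ := le_max_left _ _
  have h2 : ‖z‖ ≤ max 1 ‖z‖ := le_max_right _ _
  unfold trunc
  rw [norm_smul, Real.norm_of_nonneg (by positivity), inv_mul_le_iff₀ (by positivity)]
  linarith

theorem trunc_near {z w : ℂ} (hw : ‖w‖ ≤ 1) : ‖trunc z - w‖ ≤ 2 * ‖w - z‖ := by
  have h0 : ‖trunc z - z‖ ≤ ‖w - z‖ := by
    by_cases h : ‖z‖ ≤ 1
    · have : trunc z = z := by
        unfold trunc
        rw [max_eq_left h, inv_one, one_smul]
      rw [this, sub_self, norm_zero]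
      exact norm_nonneg _
    · push Not at h
      have hz : (0 : ℝ) < ‖z‖ := by linarith
      have e : trunc z - z = ((‖z‖⁻¹ - 1 : ℝ) : ℝ) • z := by
        unfold trunc
        rw [max_eq_right h.le, sub_smul, one_smul]
      rw [e, norm_smul, Real.norm_eq_abs]
      have h1 : ‖z‖⁻¹ ≤ 1 := inv_le_one_of_one_le₀ h.le
      rw [abs_of_nonpos (by linarith)]
      have h2 : -(‖z‖⁻¹ - 1) * ‖z‖ = ‖z‖ - 1 := by
        field_simp
        ring
      rw [h2]
      have h3 : ‖z‖ ≤ ‖w‖ + ‖w - z‖ := by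
        have := norm_sub_norm_le z w
        rw [norm_sub_rev] at this
        linarith
      linarith
  calc ‖trunc z - w‖ = ‖(trunc z - z) - (w - z)‖ := by congr 1; ring
    _ ≤ ‖trunc z - z‖ + ‖w - z‖ := norm_sub_le _ _
    _ ≤ 2 * ‖w - z‖ := by linarith

/-- a carrier of `α n` which is null for the others -/
theorem carrier {r : ℕ} {α : ℕ → Measure Tor}
    (h : ∀ m n, m < n → n < r → Measure.MutuallySingular (α n) (α m)) {n : ℕ} (hn : n < r) :
    ∃ T : Set Tor, MeasurableSet T ∧ α n Tᶜ = 0 ∧ ∀ m, m < r → m ≠ n → α m T = 0 := by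
  have h1 : Measure.MutuallySingular (α n)
      (Measure.sum fun m : {m : ℕ // m < r ∧ m ≠ n} => α m) := by
    rw [Measure.MutuallySingular.sum_right]
    rintro ⟨m, hm, hmn⟩
    rcases lt_or_gt_of_ne hmn with h' | h'
    · exact h m n h' hn
    · exact (h n m h' hm).symm
  obtain ⟨S, hS, h2, h3⟩ := h1
  refine ⟨Sᶜ, hS.compl, by rwa [compl_compl], fun m hm hmn => ?_⟩
  refine le_antisymm ?_ bot_le
  rw [← h3]
  exact Measure.le_sum (fun m : {m : ℕ // m < r ∧ m ≠ n} => α m) ⟨m, hm, hmn⟩ _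

/-- approximation of prescribed constants on pairwise singular measures by a trigonometric
polynomial bounded by one -/
theorem approx {r : ℕ} {α : ℕ → Measure Tor} (hα : ∀ n, IsProbabilityMeasure (α n))
    (h : ∀ m n, m < n → n < r → Measure.MutuallySingular (α n) (α m)) {u : ℕ → ℂ}
    (hu : ∀ n, ‖u n‖ ≤ 1) {ε : ℝ} (hε : 0 < ε) :
    ∃ (s : Finset ℤ) (d : ℤ → ℂ), (∀ x : Tor, ‖∑ k ∈ s, d k * fourier k x‖ ≤ 1) ∧
      ∀ n < r, ‖∑ k ∈ s, d k * ∫ x, (fourier k x : ℂ) ∂(α n) - u n‖ ≤ ε := by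
  classical
  choose! T hT using fun n (hn : n < r) => carrier h hn
  set f : Tor → ℂ := fun x => ∑ n ∈ Finset.range r, (T n).indicator (fun _ => u n) x with hf
  set lam : Measure Tor := ∑ n ∈ Finset.range r, α n with hlam
  have hle : ∀ n < r, α n ≤ lam := by
    intro n hn
    rw [hlam, ← Finset.add_sum_erase _ _ (Finset.mem_range.2 hn)]
    exact Measure.le_add_right le_rfl
  have hfi : Integrable f lam := by
    refine integrable_finsetSum _ fun n hn => ?_
    exact (integrable_const (u n)).indicator (hT n (Finset.mem_range.1 hn)).1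
  have hae : ∀ n < r, ∀ᵐ x ∂(α n), f x = u n := by
    intro n hn
    have h1 : ∀ᵐ x ∂(α n), x ∈ T n := by
      rw [ae_iff]
      exact (hT n hn).2.1
    have h2 : ∀ᵐ x ∂(α n), ∀ m, m < r → m ≠ n → x ∉ T m := by
      rw [ae_all_iff]
      intro m
      rw [eventually_imp_distrib_left]
      intro hm
      by_cases hmn : m = n
      · exact Eventually.of_forall fun x h => absurd hmn h
      · have := (hT m hm).2.2 n hn (Ne.symm hmn)
        rw [measure_eq_zero_iff_ae_notMem] at this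
        filter_upwards [this] with x hx _ using hx
    filter_upwards [h1, h2] with x hx1 hx2
    rw [hf]
    show ∑ m ∈ Finset.range r, (T m).indicator (fun _ => u m) x = u n
    rw [Finset.sum_eq_single n]
    · exact Set.indicator_of_mem hx1 _
    · intro m hm hmn
      exact Set.indicator_of_notMem (hx2 m (Finset.mem_range.1 hm) hmn) _
    · intro h
      exact absurd (Finset.mem_range.2 hn) h
  obtain ⟨g, hg, hgi⟩ := hfi.exists_boundedContinuous_integral_sub_le (ε := ε / 4) (by positivity)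
  set G : C(Tor, ℂ) := ⟨fun x => trunc (g x), trunc_cont.comp g.continuous⟩ with hG
  have hGn : ∀ n < r, ‖∫ x, G x ∂(α n) - u n‖ ≤ ε / 2 := by
    intro n hn
    have := hα n
    have e : ∫ x, G x ∂(α n) - u n = ∫ x, (G x - u n) ∂(α n) := by
      rw [integral_sub (cont_int _ G.continuous) (integrable_const _), integral_const]
      simp
    rw [e]
    have hi1 : Integrable (fun x => ‖f x - g x‖) lam := (hfi.sub hgi).norm
    calc ‖∫ x, (G x - u n) ∂(α n)‖ ≤ ∫ x, ‖G x - u n‖ ∂(α n) := norm_integral_le_integral_norm _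
      _ ≤ ∫ x, 2 * ‖f x - g x‖ ∂(α n) := by
          refine integral_mono_ae ?_ ?_ ?_
          · exact ((cont_int _ G.continuous).sub (integrable_const _)).norm
          · exact (hi1.mono_measure (hle n hn)).const_mul 2
          · filter_upwards [hae n hn] with x hx
            rw [hx]
            exact trunc_near (hu n)
      _ = 2 * ∫ x, ‖f x - g x‖ ∂(α n) := integral_const_mul _ _
      _ ≤ 2 * ∫ x, ‖f x - g x‖ ∂lam := by
          have := integral_mono_measure (hle n hn)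
            (Eventually.of_forall fun x => norm_nonneg (f x - g x)) hi1
          linarith
      _ ≤ ε / 2 := by linarith
  have hmem : G ∈ (Submodule.span ℂ (Set.range (@fourier (1 : ℝ)))).topologicalClosure := by
    rw [span_fourier_closure_eq_top]
    trivial
  set η : ℝ := ε / 4 with hη
  have hηp : 0 < η := by positivity
  rw [← SetLike.mem_coe, Submodule.topologicalClosure_coe, Metric.mem_closure_iff] at hmem
  obtain ⟨p, hp, hpd⟩ := hmem η hηp
  rw [SetLike.mem_coe, Finsupp.mem_span_range_iff_exists_finsupp] at hp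
  obtain ⟨c, hc⟩ := hp
  have hpx : ∀ x : Tor, ‖p x - G x‖ ≤ η := by
    intro x
    rw [dist_comm, dist_eq_norm] at hpd
    have := (p - G).norm_coe_le_norm x
    rw [ContinuousMap.sub_apply] at this
    linarith
  have hGle : ∀ x : Tor, ‖G x‖ ≤ 1 := fun x => trunc_le _
  have hpc : ∀ x : Tor, p x = ∑ k ∈ c.support, c k * fourier k x := by
    intro x
    rw [← hc, Finsupp.sum, ContinuousMap.sum_apply]
    rfl
  have hPx : ∀ x : Tor, ∑ k ∈ c.support, (((1 + η)⁻¹ : ℝ) : ℂ) * c k * fourier k x =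
      (((1 + η)⁻¹ : ℝ) : ℂ) * p x := by
    intro x
    rw [hpc x, Finset.mul_sum]
    refine Finset.sum_congr rfl fun k _ => by ring
  have hple : ∀ x : Tor, ‖p x‖ ≤ 1 + η := by
    intro x
    have h1 := norm_sub_norm_le (p x) (G x)
    have h2 := hpx x
    have h3 := hGle x
    linarith
  have hinv : ‖(((1 + η)⁻¹ : ℝ) : ℂ)‖ = (1 + η)⁻¹ := by
    rw [Complex.norm_real, Real.norm_of_nonneg (by positivity)]
  have hPle : ∀ x : Tor, ‖(((1 + η)⁻¹ : ℝ) : ℂ) * p x‖ ≤ 1 := by
    intro x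
    rw [norm_mul, hinv, inv_mul_le_iff₀ (by positivity), mul_one]
    exact hple x
  have hPd : ∀ x : Tor, ‖(((1 + η)⁻¹ : ℝ) : ℂ) * p x - G x‖ ≤ ε / 2 := by
    intro x
    have h1 : ‖(((1 + η)⁻¹ : ℝ) : ℂ) * p x - p x‖ ≤ η := by
      have e : (((1 + η)⁻¹ : ℝ) : ℂ) * p x - p x =
          (((1 + η)⁻¹ : ℝ) : ℂ) * (-(η : ℂ) * p x) := by
        have : (1 + (η : ℂ)) ≠ 0 := by
          have : (1 + η : ℝ) ≠ 0 := by positivity
          exact_mod_cast this
        push_cast
        field_simp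
        ring
      rw [e, norm_mul, hinv, norm_mul, norm_neg, Complex.norm_real, Real.norm_of_nonneg hηp.le,
        inv_mul_le_iff₀ (by positivity)]
      have := hple x
      nlinarith
    have h2 := hpx x
    calc ‖(((1 + η)⁻¹ : ℝ) : ℂ) * p x - G x‖
        = ‖((((1 + η)⁻¹ : ℝ) : ℂ) * p x - p x) + (p x - G x)‖ := by congr 1; ring
      _ ≤ ‖(((1 + η)⁻¹ : ℝ) : ℂ) * p x - p x‖ + ‖p x - G x‖ := norm_add_le _ _
      _ ≤ ε / 2 := by linarith
  refine ⟨c.support, fun k => (((1 + η)⁻¹ : ℝ) : ℂ) * c k, fun x => ?_, fun n hn => ?_⟩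
  · rw [hPx x]
    exact hPle x
  · have := hα n
    rw [int_poly]
    simp only [hPx]
    have hcP : Continuous fun x : Tor => (((1 + η)⁻¹ : ℝ) : ℂ) * p x :=
      continuous_const.mul p.continuous
    have h1 : ‖∫ x, (((1 + η)⁻¹ : ℝ) : ℂ) * p x ∂(α n) - ∫ x, G x ∂(α n)‖ ≤ ε / 2 := by
      rw [← integral_sub (cont_int _ hcP) (cont_int _ G.continuous)]
      have := norm_integral_le_of_norm_le_const (μ := α n) (Eventually.of_forall hPd)
      simpa using this
    have h2 := hGn n hn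
    calc ‖∫ x, (((1 + η)⁻¹ : ℝ) : ℂ) * p x ∂(α n) - u n‖
        = ‖(∫ x, (((1 + η)⁻¹ : ℝ) : ℂ) * p x ∂(α n) - ∫ x, G x ∂(α n)) +
            (∫ x, G x ∂(α n) - u n)‖ := by congr 1; ring
      _ ≤ _ := norm_add_le _ _
      _ ≤ ε := by linarith

/-- **WP** independent measures and polynomials -/
theorem poly_of_singular {r : ℕ} {α : ℕ → Measure Tor} (hα : ∀ n, IsProbabilityMeasure (α n))
    (h : ∀ m n, m < n → n < r → Measure.MutuallySingular (α n) (α m)) (a : ℕ → ℂ) {ε : ℝ}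
    (hε : 0 < ε) :
    ∃ (s : Finset ℤ) (d : ℤ → ℂ), (∀ x : Tor, ‖∑ k ∈ s, d k * fourier k x‖ ≤ 1) ∧
      ∑ n ∈ Finset.range r, ‖a n‖ - ε <
        ‖∑ n ∈ Finset.range r, a n * ∑ k ∈ s, d k * ∫ x, (fourier k x : ℂ) ∂(α n)‖ := by
  set A : ℝ := ∑ n ∈ Finset.range r, ‖a n‖ with hA
  have hA0 : 0 ≤ A := Finset.sum_nonneg fun n _ => norm_nonneg _
  set u : ℕ → ℂ := fun n => (starRingEnd ℂ) (a n) / ‖a n‖ with hu
  have hu1 : ∀ n, ‖u n‖ ≤ 1 := by
    intro n
    rw [hu]
    show ‖(starRingEnd ℂ) (a n) / ‖a n‖‖ ≤ 1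
    rw [norm_div, RCLike.norm_conj, Complex.norm_real, norm_norm]
    exact div_self_le_one _
  have hau : ∀ n, a n * u n = (‖a n‖ : ℂ) := by
    intro n
    rw [hu]
    show a n * ((starRingEnd ℂ) (a n) / ‖a n‖) = _
    rw [← mul_div_assoc, Complex.mul_conj, Complex.normSq_eq_norm_sq]
    by_cases h0 : ‖a n‖ = 0
    · simp [h0]
    · have : (‖a n‖ : ℂ) ≠ 0 := by exact_mod_cast h0
      push_cast
      field_simp
  obtain ⟨s, d, h1, h2⟩ := approx hα h hu1 (ε := ε / (2 * (A + 1))) (by positivity)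
  refine ⟨s, d, h1, ?_⟩
  have h3 : ‖∑ n ∈ Finset.range r, a n * (∑ k ∈ s, d k * ∫ x, (fourier k x : ℂ) ∂(α n)) - (A : ℂ)‖
      ≤ A * (ε / (2 * (A + 1))) := by
    have e : ∑ n ∈ Finset.range r, a n * (∑ k ∈ s, d k * ∫ x, (fourier k x : ℂ) ∂(α n)) - (A : ℂ) =
        ∑ n ∈ Finset.range r, a n * ((∑ k ∈ s, d k * ∫ x, (fourier k x : ℂ) ∂(α n)) - u n) := by
      rw [hA]
      push_cast
      rw [← Finset.sum_sub_distrib]
      refine Finset.sum_congr rfl fun n _ => ?_
      rw [mul_sub, hau]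
    rw [e]
    refine (norm_sum_le _ _).trans ?_
    rw [hA, Finset.sum_mul]
    refine Finset.sum_le_sum fun n hn => ?_
    rw [norm_mul]
    exact mul_le_mul_of_nonneg_left (h2 n (Finset.mem_range.1 hn)) (norm_nonneg _)
  have h4 : A * (ε / (2 * (A + 1))) < ε := by
    rw [mul_div_assoc', div_lt_iff₀ (by positivity)]
    nlinarith
  have h5 : ‖(A : ℂ)‖ = A := by rw [Complex.norm_real, Real.norm_of_nonneg hA0]
  have h6 := norm_sub_norm_le (A : ℂ)
    (∑ n ∈ Finset.range r, a n * (∑ k ∈ s, d k * ∫ x, (fourier k x : ℂ) ∂(α n)))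
  rw [norm_sub_rev, h5] at h6
  linarith

/-- the integral of a polynomial against the two parts of a measure -/
theorem split_le {α ρ : Measure Tor} [IsProbabilityMeasure α] [IsProbabilityMeasure ρ] {c : ℝ}
    (hc : 0 < c) (h : ρ ≤ ENNReal.ofReal c • α) {f : Tor → ℂ} (hf : Continuous f)
    (h1 : ∀ x, ‖f x‖ ≤ 1) : ‖∫ x, f x ∂α - (c⁻¹ : ℝ) • ∫ x, f x ∂ρ‖ ≤ 1 - c⁻¹ := by
  have hc0 : ENNReal.ofReal c ≠ 0 := by simpa using hc
  have hle : (ENNReal.ofReal c)⁻¹ • ρ ≤ α := by
    rw [Measure.le_iff] at h ⊢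
    intro s hs
    have h2 := h s hs
    rw [Measure.smul_apply, smul_eq_mul] at h2 ⊢
    rw [ENNReal.inv_mul_le_iff hc0 ENNReal.ofReal_ne_top]
    exact h2
  have hfin : IsFiniteMeasure ((ENNReal.ofReal c)⁻¹ • ρ) :=
    isFiniteMeasure_of_le α hle
  have e := Measure.sub_add_cancel_of_le hle
  set β := α - (ENNReal.ofReal c)⁻¹ • ρ with hβ
  have hβf : IsFiniteMeasure β := isFiniteMeasure_of_le α Measure.sub_le
  have e1 : ∫ x, f x ∂α = ∫ x, f x ∂β + (c⁻¹ : ℝ) • ∫ x, f x ∂ρ := by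
    conv_lhs => rw [← e]
    rw [integral_add_measure (cont_int _ hf) (cont_int _ hf), integral_smul_measure,
      ENNReal.toReal_inv, ENNReal.toReal_ofReal hc.le]
  have e2 : β.real Set.univ = 1 - c⁻¹ := by
    have h3 : α.real Set.univ = β.real Set.univ + c⁻¹ := by
      conv_lhs => rw [← e]
      rw [measureReal_add_apply, measureReal_ennreal_smul_apply, ENNReal.toReal_inv,
        ENNReal.toReal_ofReal hc.le]
      simp
    have h4 : α.real Set.univ = 1 := by simp
    linarith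
  rw [e1, add_sub_cancel_right]
  have := norm_integral_le_of_norm_le_const (μ := β) (Eventually.of_forall h1)
  rw [e2, one_mul] at this
  exact this

/-- **WP'** the converse for two measures with a common component -/
theorem norm_of_common {α β ρ : Measure Tor} [IsProbabilityMeasure α] [IsProbabilityMeasure β]
    [IsProbabilityMeasure ρ] {c : ℝ≥0∞} (hc : c ≠ ⊤) (h1 : ρ ≤ c • α) (h2 : ρ ≤ c • β) :
    ∃ δ : ℝ, 0 < δ ∧ ∀ (s : Finset ℤ) (d : ℤ → ℂ), (∀ x : Tor, ‖∑ k ∈ s, d k * fourier k x‖ ≤ 1) →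
      ‖∑ k ∈ s, d k * ∫ x, (fourier k x : ℂ) ∂α - ∑ k ∈ s, d k * ∫ x, (fourier k x : ℂ) ∂β‖ ≤
        2 - δ := by
  have hc0 : c ≠ 0 := by
    rintro rfl
    rw [zero_smul] at h1
    have := h1 Set.univ
    simp at this
  set C : ℝ := c.toReal with hC
  have hCp : 0 < C := ENNReal.toReal_pos hc0 hc
  have hcC : c = ENNReal.ofReal C := (ENNReal.ofReal_toReal hc).symm
  rw [hcC] at h1 h2
  refine ⟨2 * C⁻¹, by positivity, fun s d hd => ?_⟩
  rw [int_poly, int_poly]
  have hcont : Continuous fun x : Tor => ∑ k ∈ s, d k * (fourier k x : ℂ) :=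
    continuous_finsetSum _ fun k _ => continuous_const.mul (fourier k).continuous
  have h3 := split_le hCp h1 hcont hd
  have h4 := split_le hCp h2 hcont hd
  set a := ∫ x, ∑ k ∈ s, d k * (fourier k x : ℂ) ∂α
  set b := ∫ x, ∑ k ∈ s, d k * (fourier k x : ℂ) ∂β
  set w := (C⁻¹ : ℝ) • ∫ x, ∑ k ∈ s, d k * (fourier k x : ℂ) ∂ρ
  calc ‖a - b‖ = ‖(a - w) - (b - w)‖ := by congr 1; ring
    _ ≤ ‖a - w‖ + ‖b - w‖ := norm_sub_le _ _
    _ ≤ 2 - 2 * C⁻¹ := by linarith

end Helper39.IP
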